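import Pool.Agent.H87.LUY.Stmts

/-!
Project LU, part Y, module IXI: the index tends to infinity.
-/

set_option autoImplicit false

open scoped BigOperators Topology
open Filter Pool.H3.L2

noncomputable section

namespace Pool.LU.FK

theorem ixi : IXIStmt := by
  intro G _ c
  have h : StrictMono fun i => (c.N i).index :=
    fun i j hij => Subgroup.index_strictAnti (c.anti hij)
  exact tendsto_natCast_atTop_atTop.comp h.tendsto_atTop

end Pool.LU.FK
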