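import Pool.Agent.H87.LUY.Stmts

/-!
Project LU, part Y, module MSR: the limit of the inequality between the integrals of logarithms.
-/

set_option autoImplicit false

open scoped BigOperators Topology
open Filter MeasureTheory Pool.H3.L2 Pool.H29.L2

noncomputable section

namespace Pool.LU.FK

theorem msr_ae {R : ℝ} {μ : Measure ℝ} (h : Pool.H29.Mom.On R μ) (h0 : μ {0} = 0) :
    ∀ᵐ x ∂μ, 0 < x ∧ x ≤ R := by
  have e2 : ∀ᵐ y ∂μ, y ≠ 0 := by
    rw [ae_iff]
    simpa using h0
  filter_upwards [h.ae, e2] with y hy hy0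
  exact ⟨lt_of_le_of_ne hy.1 (Ne.symm hy0), hy.2⟩

theorem msr_cont {ε : ℝ} (hε : 0 < ε) {R : ℝ} {μ : Measure ℝ} (h : Pool.H29.Mom.On R μ) :
    Integrable (fun x => Real.log (x + ε)) μ := by
  have h1 : Continuous fun x : ℝ => Real.log (max x 0 + ε) :=
    Continuous.log (by fun_prop) fun x => by positivity
  refine (h.integrable h1).congr ?_
  filter_upwards [h.ae] with x hx
  rw [max_eq_left hx.1]

theorem msr_cont2 {ε : ℝ} (hε : 0 < ε) {R : ℝ} {μ : Measure ℝ} (h : Pool.H29.Mom.On R μ) :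
    Integrable (fun x => Real.log (x ^ 2 + ε ^ 3)) μ :=
  h.integrable (Continuous.log (by fun_prop) fun x => by positivity)

theorem msr_lim {R : ℝ} {μ : Measure ℝ} (h : Pool.H29.Mom.On R μ) (h0 : μ {0} = 0)
    (hi : Integrable Real.log μ) :
    Tendsto (fun ε => ∫ x, Real.log (x + ε) ∂μ) (𝓝[>] 0) (𝓝 (∫ x, Real.log x ∂μ)) := by
  have := h.fin
  refine tendsto_integral_filter_of_dominated_convergence (fun x => |Real.log x| + (R + 1)) ?_ ?_ ?_
    ?_
  · exact Eventually.of_forall fun ε =>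
      (Real.measurable_log.comp (measurable_id.add_const ε)).aestronglyMeasurable
  · have h1 : ∀ᶠ ε : ℝ in 𝓝[>] 0, ε < 1 := by
      have : ∀ᶠ ε : ℝ in 𝓝 0, ε < 1 := eventually_lt_nhds zero_lt_one
      exact this.filter_mono nhdsWithin_le_nhds
    filter_upwards [h1, self_mem_nhdsWithin] with ε hε1 hε0
    filter_upwards [msr_ae h h0] with x hx
    rw [Real.norm_eq_abs, add_comm x ε]
    have h2 : (0 : ℝ) < ε := hε0
    exact abs_log_add_le h2.le hx.1 (by linarith [hx.2])
  · exact hi.abs.add (integrable_const _)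
  · filter_upwards [msr_ae h h0] with x hx
    have h1 : Tendsto (fun ε : ℝ => x + ε) (𝓝 0) (𝓝 (x + 0)) :=
      (continuous_const.add continuous_id).tendsto 0
    rw [add_zero] at h1
    exact ((Real.continuousAt_log hx.1.ne').tendsto.comp h1).mono_left nhdsWithin_le_nhds

theorem msr_low {R : ℝ} {μ : Measure ℝ} (h : Pool.H29.Mom.On R μ) (h0 : μ {0} = 0)
    (hi : Integrable Real.log μ) {ε : ℝ} (hε : 0 < ε) :
    2 * ∫ x, Real.log x ∂μ ≤ ∫ x, Real.log (x ^ 2 + ε ^ 3) ∂μ := by
  rw [← integral_const_mul]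
  refine integral_mono_ae (hi.const_mul 2) (msr_cont2 hε h) ?_
  filter_upwards [msr_ae h h0] with x hx
  have h1 : 2 * Real.log x = Real.log (x ^ 2) := by rw [Real.log_pow]; norm_num
  show 2 * Real.log x ≤ _
  rw [h1]
  refine Real.log_le_log (pow_pos hx.1 2) ?_
  have : 0 < ε ^ 3 := by positivity
  linarith

theorem msr_bdd {R : ℝ} {μ : Measure ℝ} (h : Pool.H29.Mom.On R μ) {B : ℝ}
    (hB : ∀ᶠ ε : ℝ in 𝓝[>] 0, B ≤ ∫ x, Real.log (x + ε) ∂μ) :
    μ {0} = 0 ∧ Integrable Real.log μ := by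
  have := h.fin
  set M : ℝ := |R| + 1 with hM
  obtain ⟨t, ht⟩ : ∃ t : ℕ → ℝ, ∀ n, t n = 1 / ((n : ℝ) + 1) := ⟨_, fun _ => rfl⟩
  have ht0 : ∀ n, 0 < t n := fun n => by rw [ht]; positivity
  have ht1 : ∀ n, t n ≤ 1 := fun n => by
    rw [ht, div_le_one (by positivity)]
    have : (0 : ℝ) ≤ n := Nat.cast_nonneg n
    linarith
  have htl : Tendsto t atTop (𝓝 0) := by
    have := tendsto_one_div_add_atTop_nhds_zero_nat (𝕜 := ℝ)
    refine this.congr fun n => ?_
    rw [ht]
  have htl' : Tendsto t atTop (𝓝[>] 0) :=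
    tendsto_nhdsWithin_iff.2 ⟨htl, Eventually.of_forall fun n => ht0 n⟩
  have hnn : ∀ n, ∀ᵐ x ∂μ, 0 ≤ M - Real.log (x + t n) := by
    intro n
    filter_upwards [h.ae] with x hx
    have h1 := Real.log_le_self (add_nonneg hx.1 (ht0 n).le)
    have h2 := le_abs_self R
    have h3 := ht1 n
    have h4 := hx.2
    rw [hM]
    linarith
  obtain ⟨f, hf⟩ : ∃ f : ℕ → ℝ → ENNReal, ∀ n x, f n x = ENNReal.ofReal (M - Real.log (x + t n)) :=
    ⟨_, fun _ _ => rfl⟩
  have hfm : ∀ n, Measurable (f n) := by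
    intro n
    have h1 : f n = fun x => ENNReal.ofReal (M - Real.log (x + t n)) := funext fun x => hf n x
    rw [h1]
    exact (measurable_const.sub (Real.measurable_log.comp (measurable_id.add_const _))).ennreal_ofReal
  have hint : ∀ n, ∫⁻ x, f n x ∂μ = ENNReal.ofReal (M * μ.real Set.univ -
      ∫ x, Real.log (x + t n) ∂μ) := by
    intro n
    simp only [hf]
    have hi' : Integrable (fun x => M - Real.log (x + t n)) μ :=
      (integrable_const M).sub (msr_cont (ht0 n) h)
    rw [← ofReal_integral_eq_lintegral_ofReal hi' (hnn n)]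
    congr 1
    rw [integral_sub (integrable_const M) (msr_cont (ht0 n) h), integral_const, smul_eq_mul,
      mul_comm]
  have hfat : ∫⁻ x, liminf (fun n => f n x) atTop ∂μ ≤
      liminf (fun n => ∫⁻ x, f n x ∂μ) atTop := lintegral_liminf_le hfm
  have hle : liminf (fun n => ∫⁻ x, f n x ∂μ) atTop ≤
      ENNReal.ofReal (M * μ.real Set.univ - B) := by
    refine liminf_le_of_frequently_le' (Eventually.frequently ?_)
    filter_upwards [htl'.eventually hB] with n hn
    rw [hint]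
    exact ENNReal.ofReal_le_ofReal (by linarith)
  have hfin : ∫⁻ x, liminf (fun n => f n x) atTop ∂μ ≠ ⊤ :=
    ne_top_of_le_ne_top ENNReal.ofReal_ne_top (hfat.trans hle)
  have hpos : ∀ x : ℝ, 0 < x → liminf (fun n => f n x) atTop = ENNReal.ofReal (M - Real.log x) := by
    intro x hx
    refine Tendsto.liminf_eq ?_
    have h1 : Tendsto (fun n => x + t n) atTop (𝓝 (x + 0)) := tendsto_const_nhds.add htl
    rw [add_zero] at h1
    have h2 := (Real.continuousAt_log hx.ne').tendsto.comp h1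
    have h3 := (ENNReal.continuous_ofReal.tendsto _).comp ((tendsto_const_nhds (x := M)).sub h2)
    refine h3.congr fun n => ?_
    rw [hf]
    rfl
  have hzero : liminf (fun n => f n 0) atTop = ⊤ := by
    refine Tendsto.liminf_eq ?_
    have h2 : Tendsto (fun n => Real.log (t n)) atTop atBot :=
      Real.tendsto_log_nhdsGT_zero.comp htl'
    have h3 : Tendsto (fun n => M - Real.log (t n)) atTop atTop := by
      refine tendsto_atTop_add_const_left atTop M (tendsto_neg_atBot_atTop.comp h2) |>.congr ?_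
      intro n
      simp [sub_eq_add_neg]
    refine (ENNReal.tendsto_ofReal_atTop.comp h3).congr fun n => ?_
    rw [hf, zero_add]
    rfl
  have hmeas : Measurable fun x => liminf (fun n => f n x) atTop := Measurable.liminf hfm
  have hae := ae_lt_top hmeas hfin
  have h0 : μ {0} = 0 := by
    rw [ae_iff] at hae
    refine measure_mono_null ?_ hae
    rintro x hx
    rw [Set.mem_singleton_iff] at hx
    subst hx
    show ¬ liminf (fun n => f n 0) atTop < ⊤
    rw [hzero]
    exact lt_irrefl _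
  refine ⟨h0, ?_⟩
  have hnn0 : ∀ᵐ x ∂μ, 0 ≤ M - Real.log x := by
    filter_upwards [msr_ae h h0] with x hx
    have h1 := Real.log_le_self hx.1.le
    have h2 := le_abs_self R
    rw [hM]
    linarith [hx.2]
  have hi : Integrable (fun x => M - Real.log x) μ := by
    refine ⟨(measurable_const.sub Real.measurable_log).aestronglyMeasurable, ?_⟩
    rw [hasFiniteIntegral_iff_ofReal hnn0]
    refine lt_of_le_of_lt (le_of_eq ?_) (lt_top_iff_ne_top.2 hfin)
    refine lintegral_congr_ae ?_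
    filter_upwards [msr_ae h h0] with x hx
    rw [hpos x hx.1]
  have hj := (integrable_const M).sub hi
  refine hj.congr (Eventually.of_forall fun x => ?_)
  show M - (M - Real.log x) = Real.log x
  ring

theorem msr : MSRStmt := by
  intro R κ a μ0 μ1 μ3 e h0 h1 h3 hκ h00 h30 hi0 hi3 he hle
  set L0 := ∫ x, Real.log x ∂μ0 with hL0
  set L3 := ∫ x, Real.log x ∂μ3 with hL3
  have hA : Tendsto (fun ε => 2 * L0 + 2 * L3 + κ * (a - e ε) - ∫ x, Real.log (x + ε) ∂μ3)
      (𝓝[>] 0) (𝓝 (2 * L0 + L3 + κ * a)) := by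
    have h4 := msr_lim h3 h30 hi3
    have h5 : Tendsto (fun ε => κ * (a - e ε)) (𝓝[>] 0) (𝓝 (κ * (a - 0))) :=
      (tendsto_const_nhds.sub he).const_mul κ
    have h6 := ((tendsto_const_nhds (x := 2 * L0 + 2 * L3)).add h5).sub h4
    refine h6.congr' (Eventually.of_forall fun ε => rfl) |>.trans ?_
    rw [← hL3]
    refine le_of_eq (congrArg 𝓝 ?_)
    ring
  have hle' : ∀ᶠ ε in 𝓝[>] (0 : ℝ), 2 * L0 + 2 * L3 + κ * (a - e ε) -
      ∫ x, Real.log (x + ε) ∂μ3 ≤ ∫ x, Real.log (x + ε) ∂μ1 := by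
    filter_upwards [hle, self_mem_nhdsWithin] with ε hε hε0
    have h4 := msr_low h0 h00 hi0 hε0
    have h5 := msr_low h3 h30 hi3 hε0
    linarith
  have hB : ∀ᶠ ε in 𝓝[>] (0 : ℝ), 2 * L0 + L3 + κ * a - 1 ≤ ∫ x, Real.log (x + ε) ∂μ1 := by
    filter_upwards [hle', hA.eventually (eventually_ge_nhds (by linarith :
      2 * L0 + L3 + κ * a - 1 < 2 * L0 + L3 + κ * a))] with ε h4 h5
    linarith
  obtain ⟨h10, hi1⟩ := msr_bdd h1 hB
  exact ⟨h10, hi1, le_of_tendsto_of_tendsto hA (msr_lim h1 h10 hi1) hle'⟩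

end Pool.LU.FK
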