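import Pool.Agent.H87.LUY.Stmts

/-!
Project LU, part Y, module RHO: the torsion of a three-dimensional acyclic complex.
-/

set_option autoImplicit false

open scoped BigOperators Topology
open Filter MeasureTheory Pool.H3.L2 Pool.H29.L2

noncomputable section

namespace Pool.LU.FK

theorem rho : RHOStmt := by
  intro G _ C μ hd hμ h0 hl
  have hP : ∀ s, C.deg s < 4 := fun s => by have := hd s; omega
  have hon := fun k => isSpectral_on (hμ k)
  obtain ⟨R, -, hR⟩ := family_on hon 4
  have hM : ∀ n : ℕ, 1 ≤ n →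
      ∑ p ∈ Finset.range 4, (-1 : ℝ) ^ p * ∫ x, x ^ n ∂(μ p) = 0 := by
    intro n hn
    rw [super_moment hμ hP n, mckean C n hn, Int.cast_zero]
  have hz : ∑ p ∈ Finset.range 4, (-1 : ℝ) ^ p * ∫ x, Real.log x ∂(μ p) = 0 := by
    refine super_zero (R := R) (fun p hp => hR p (Finset.mem_range.1 hp)) (fun n => ?_)
      fun p _ => hl p
    rcases Nat.eq_zero_or_pos n with hn | hn
    · subst hn
      exact super_mass (R := R) (fun q hq => hR q (Finset.mem_range.1 hq)) hM fun q _ => h0 q
    · exact hM n hn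
  have hint : ∀ j, ∫ x in Set.Ioi (0 : ℝ), Real.log x ∂(μ j) = ∫ x, Real.log x ∂(μ j) := by
    intro j
    obtain ⟨R3, h3⟩ := hon j
    exact h3.integral_log
  have hJ : Finset.univ.sup C.deg + 1 ≤ 4 := by
    have : Finset.univ.sup C.deg ≤ 3 := Finset.sup_le fun s _ => hd s
    omega
  have hrho : C.rho μ = -(1 / 2) * ∑ j ∈ Finset.range 4,
      (-1) ^ j * (j : ℝ) * ∫ x, Real.log x ∂(μ j) := by
    unfold BCx.rho
    simp_rw [hint]
    congr 1
    refine Finset.sum_subset (Finset.range_subset_range.2 hJ) fun j _ hj => ?_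
    have hj' : Finset.univ.sup C.deg + 1 ≤ j := by simpa using hj
    have h1 : μ j = 0 := spectral_zero (hμ j) fun s => by
      have h2 : C.deg s ≤ Finset.univ.sup C.deg := Finset.le_sup (f := C.deg) (Finset.mem_univ s)
      omega
    rw [h1]
    simp
  rw [hrho]
  simp only [Finset.sum_range_succ, Finset.sum_range_zero] at hz ⊢
  push_cast
  linarith

end Pool.LU.FK
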